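import Mathlib

set_option autoImplicit false

/-!
The Fejér kernel `KT δ t = δ sinc²(π δ t)` : Fourier transform, Fourier series over the integers and
tails. The first two theorems are copied from `Pool.Agent.Helper7.OT.Sinc`.
-/

open MeasureTheory Filter Topology Set

namespace Pool.Agent.W354.LS

open FourierTransform in
theorem sinc_fourier_aux1 (t : ℝ) :
    𝓕 (fun x : ℝ => ((max 0 (1 - |x|) : ℝ) : ℂ)) t = ((Real.sinc (Real.pi * t) ^ 2 : ℝ) : ℂ) := by
  set a : ℂ := -(2 * Real.pi * t * Complex.I) with ha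
  have h1 : 𝓕 (fun x : ℝ => ((max 0 (1 - |x|) : ℝ) : ℂ)) t =
      ∫ x : ℝ, ((max 0 (1 - |x|) : ℝ) : ℂ) * Complex.exp (a * x) := by
    rw [Real.fourier_real_eq_integral_exp_smul]
    congr 1
    funext x
    rw [smul_eq_mul, mul_comm]
    congr 2
    rw [ha]; push_cast; ring
  have hsupp : ∀ x : ℝ, x ∉ Set.Ioc (-1 : ℝ) 1 →
      ((max 0 (1 - |x|) : ℝ) : ℂ) * Complex.exp (a * x) = 0 := by
    intro x hx
    have h2 : max 0 (1 - |x|) = 0 := by
      apply max_eq_left
      by_contra hcon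
      push Not at hcon
      have h3 : |x| < 1 := by linarith
      rw [abs_lt] at h3
      exact hx ⟨h3.1, h3.2.le⟩
    rw [h2]; simp
  have h2 : ∫ x : ℝ, ((max 0 (1 - |x|) : ℝ) : ℂ) * Complex.exp (a * x) =
      ∫ x in (-1 : ℝ)..1, ((max 0 (1 - |x|) : ℝ) : ℂ) * Complex.exp (a * x) := by
    rw [intervalIntegral.integral_of_le (by norm_num)]
    exact (setIntegral_eq_integral_of_forall_compl_eq_zero hsupp).symm
  have hcont : Continuous (fun x : ℝ => ((max 0 (1 - |x|) : ℝ) : ℂ) * Complex.exp (a * x)) := by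
    fun_prop
  have h3 : ∫ x in (-1 : ℝ)..1, ((max 0 (1 - |x|) : ℝ) : ℂ) * Complex.exp (a * x) =
      (∫ x in (-1 : ℝ)..0, (1 + (x : ℂ)) * Complex.exp (a * x)) +
        ∫ x in (0 : ℝ)..1, (1 - (x : ℂ)) * Complex.exp (a * x) := by
    rw [← intervalIntegral.integral_add_adjacent_intervals (b := 0)
      (hcont.intervalIntegrable _ _) (hcont.intervalIntegrable _ _)]
    congr 1
    · apply intervalIntegral.integral_congr
      intro x hx
      rw [Set.uIcc_of_le (by norm_num)] at hx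
      simp only
      rw [abs_of_nonpos hx.2, max_eq_right (by linarith [hx.1])]
      push_cast; ring
    · apply intervalIntegral.integral_congr
      intro x hx
      rw [Set.uIcc_of_le (by norm_num)] at hx
      simp only
      rw [abs_of_nonneg hx.1, max_eq_right (by linarith [hx.2])]
      push_cast; ring
  rw [h1, h2, h3]
  by_cases ht : t = 0
  · have ha0 : a = 0 := by rw [ha, ht]; simp
    rw [ha0, ht]
    simp only [zero_mul, Complex.exp_zero, mul_one, mul_zero, Real.sinc_zero, one_pow]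
    have e1 : ∫ x in (-1 : ℝ)..0, (1 + (x : ℂ)) = 1 / 2 := by
      have : ∀ x : ℝ, HasDerivAt (fun x : ℝ => (x : ℂ) + (x : ℂ) ^ 2 / 2) (1 + (x : ℂ)) x := by
        intro x
        have hx : HasDerivAt (fun x : ℝ => (x : ℂ)) 1 x := Complex.ofRealCLM.hasDerivAt
        have h4 := hx.add ((hx.pow 2).div_const 2)
        have h5 : (1 : ℂ) + (x : ℂ) = 1 + ((2 : ℕ) : ℂ) * (x : ℂ) ^ (2 - 1) * 1 / 2 := by
          norm_num
        rw [h5]
        exact h4
      rw [intervalIntegral.integral_eq_sub_of_hasDerivAt (fun x _ => this x)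
        (Continuous.intervalIntegrable (by fun_prop) _ _)]
      push_cast; norm_num
    have e2 : ∫ x in (0 : ℝ)..1, (1 - (x : ℂ)) = 1 / 2 := by
      have : ∀ x : ℝ, HasDerivAt (fun x : ℝ => (x : ℂ) - (x : ℂ) ^ 2 / 2) (1 - (x : ℂ)) x := by
        intro x
        have hx : HasDerivAt (fun x : ℝ => (x : ℂ)) 1 x := Complex.ofRealCLM.hasDerivAt
        have h4 := hx.sub ((hx.pow 2).div_const 2)
        have h5 : (1 : ℂ) - (x : ℂ) = 1 - ((2 : ℕ) : ℂ) * (x : ℂ) ^ (2 - 1) * 1 / 2 := by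
          norm_num
        rw [h5]
        exact h4
      rw [intervalIntegral.integral_eq_sub_of_hasDerivAt (fun x _ => this x)
        (Continuous.intervalIntegrable (by fun_prop) _ _)]
      push_cast; norm_num
    rw [e1, e2]
    norm_num
  · have hpi : (Real.pi : ℂ) ≠ 0 := by exact_mod_cast Real.pi_ne_zero
    have htc : (t : ℂ) ≠ 0 := by exact_mod_cast ht
    have ha0 : a ≠ 0 := by
      rw [ha]
      simp [hpi, htc, Complex.I_ne_zero]
    have hexp : ∀ x : ℝ, HasDerivAt (fun x : ℝ => Complex.exp (a * x))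
        (Complex.exp (a * x) * a) x := by
      intro x
      have hx : HasDerivAt (fun x : ℝ => (x : ℂ)) 1 x := Complex.ofRealCLM.hasDerivAt
      have := (hx.const_mul a).cexp
      rw [mul_one] at this
      exact this
    have e1 : ∫ x in (-1 : ℝ)..0, (1 + (x : ℂ)) * Complex.exp (a * x) =
        1 / a - 1 / a ^ 2 + Complex.exp (-a) / a ^ 2 := by
      have : ∀ x : ℝ, HasDerivAt (fun x : ℝ => (1 + (x : ℂ)) * Complex.exp (a * x) * (1 / a) -
          Complex.exp (a * x) * (1 / a ^ 2)) ((1 + (x : ℂ)) * Complex.exp (a * x)) x := by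
        intro x
        have hx : HasDerivAt (fun x : ℝ => (x : ℂ)) 1 x := Complex.ofRealCLM.hasDerivAt
        have h4 := ((((hx.const_add 1).mul (hexp x)).mul_const (1 / a)).sub
          ((hexp x).mul_const (1 / a ^ 2)))
        have h5 : (1 + (x : ℂ)) * Complex.exp (a * x) =
            (1 * Complex.exp (a * x) + (1 + (x : ℂ)) * (Complex.exp (a * x) * a)) * (1 / a) -
            Complex.exp (a * x) * a * (1 / a ^ 2) := by
          field_simp
          ring
        rw [h5]
        exact h4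
      rw [intervalIntegral.integral_eq_sub_of_hasDerivAt (fun x _ => this x)
        (Continuous.intervalIntegrable (by fun_prop) _ _)]
      have h6 : a * ((-1 : ℝ) : ℂ) = -a := by push_cast; ring
      have h7 : a * ((0 : ℝ) : ℂ) = 0 := by push_cast; ring
      rw [h6, h7, Complex.exp_zero]
      push_cast
      ring
    have e2 : ∫ x in (0 : ℝ)..1, (1 - (x : ℂ)) * Complex.exp (a * x) =
        Complex.exp a / a ^ 2 - 1 / a - 1 / a ^ 2 := by
      have : ∀ x : ℝ, HasDerivAt (fun x : ℝ => (1 - (x : ℂ)) * Complex.exp (a * x) * (1 / a) +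
          Complex.exp (a * x) * (1 / a ^ 2)) ((1 - (x : ℂ)) * Complex.exp (a * x)) x := by
        intro x
        have hx : HasDerivAt (fun x : ℝ => (x : ℂ)) 1 x := Complex.ofRealCLM.hasDerivAt
        have h4 := ((((hx.const_sub 1).mul (hexp x)).mul_const (1 / a)).add
          ((hexp x).mul_const (1 / a ^ 2)))
        have h5 : (1 - (x : ℂ)) * Complex.exp (a * x) =
            (-1 * Complex.exp (a * x) + (1 - (x : ℂ)) * (Complex.exp (a * x) * a)) * (1 / a) +
            Complex.exp (a * x) * a * (1 / a ^ 2) := by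
          field_simp
          ring
        rw [h5]
        exact h4
      rw [intervalIntegral.integral_eq_sub_of_hasDerivAt (fun x _ => this x)
        (Continuous.intervalIntegrable (by fun_prop) _ _)]
      have h6 : a * ((1 : ℝ) : ℂ) = a := by push_cast; ring
      have h7 : a * ((0 : ℝ) : ℂ) = 0 := by push_cast; ring
      rw [h6, h7, Complex.exp_zero]
      push_cast
      ring
    rw [e1, e2, Real.sinc_of_ne_zero (mul_ne_zero Real.pi_ne_zero ht)]
    have hcos : Complex.exp a + Complex.exp (-a) = 2 * Complex.cos (2 * (Real.pi * t)) := by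
      rw [Complex.cos, ha]
      have : -(2 * (Real.pi * t)) * Complex.I = -(2 * Real.pi * t * Complex.I) := by ring
      rw [this]
      have h8 : 2 * ((Real.pi : ℂ) * t) * Complex.I = - -(2 * Real.pi * t * Complex.I) := by ring
      rw [h8]
      ring
    have hcos2 : Complex.cos (2 * (Real.pi * t)) = 1 - 2 * Complex.sin (Real.pi * t) ^ 2 := by
      rw [Complex.cos_two_mul]
      have := Complex.sin_sq_add_cos_sq ((Real.pi : ℂ) * t)
      linear_combination 2 * this
    have ha2 : a ^ 2 = -(4 * (Real.pi * t) ^ 2) := by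
      rw [ha]
      have := Complex.I_sq
      linear_combination (4 * (Real.pi : ℂ) ^ 2 * (t : ℂ) ^ 2) * this
    have h9 : 1 / a - 1 / a ^ 2 + Complex.exp (-a) / a ^ 2 +
        (Complex.exp a / a ^ 2 - 1 / a - 1 / a ^ 2) =
        (Complex.exp a + Complex.exp (-a) - 2) / a ^ 2 := by ring
    rw [h9, hcos, hcos2, ha2]
    push_cast
    field_simp
    ring

theorem sinc_fourier_int : Integrable (fun t : ℝ => Real.sinc (Real.pi * t) ^ 2) := by
  have hcont : Continuous (fun t : ℝ => Real.sinc (Real.pi * t) ^ 2) := by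
    have := Real.continuous_sinc
    fun_prop
  have hdom : Integrable (fun t : ℝ => 2 * (1 + t ^ 2)⁻¹) := integrable_inv_one_add_sq.const_mul 2
  refine hdom.mono' hcont.aestronglyMeasurable (Filter.Eventually.of_forall fun t => ?_)
  rw [Real.norm_eq_abs, abs_of_nonneg (sq_nonneg _)]
  have h1 : Real.sinc (Real.pi * t) ^ 2 ≤ 1 := by
    have := Real.abs_sinc_le_one (Real.pi * t)
    rw [← sq_abs]
    nlinarith [abs_nonneg (Real.sinc (Real.pi * t))]
  have h2 : Real.sinc (Real.pi * t) ^ 2 * t ^ 2 ≤ 1 := by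
    by_cases ht : t = 0
    · rw [ht]; norm_num
    · rw [Real.sinc_of_ne_zero (mul_ne_zero Real.pi_ne_zero ht)]
      have h3 : (Real.sin (Real.pi * t) / (Real.pi * t)) ^ 2 * t ^ 2 =
          Real.sin (Real.pi * t) ^ 2 / Real.pi ^ 2 := by
        have := Real.pi_ne_zero
        field_simp
      rw [h3, div_le_one (by positivity)]
      have h4 := Real.sin_sq_le_one (Real.pi * t)
      have h5 := Real.pi_gt_three
      nlinarith
  rw [← div_eq_mul_inv, le_div_iff₀ (by positivity)]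
  nlinarith


/-- triangle function -/
noncomputable def tri (x : ℝ) : ℝ := max 0 (1 - |x|)

theorem tri_nonneg (x : ℝ) : 0 ≤ tri x := le_max_left _ _

theorem tri_le_one (x : ℝ) : tri x ≤ 1 := by
  unfold tri
  apply max_le (by norm_num)
  linarith [abs_nonneg x]

theorem tri_zero : tri 0 = 1 := by unfold tri; simp

theorem tri_eq_zero {x : ℝ} (h : 1 ≤ |x|) : tri x = 0 := by
  unfold tri
  apply max_eq_left
  linarith

open FourierTransform in
/-- the Fourier transform of `sinc²` is the triangle function -/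
theorem sinc_ft (x : ℝ) : ∫ v : ℝ, Complex.exp (((2 * Real.pi * (x * v) : ℝ) : ℂ) * Complex.I) *
      ((Real.sinc (Real.pi * v) ^ 2 : ℝ) : ℂ) = ((tri x : ℝ) : ℂ) := by
  have hc : Continuous (fun x : ℝ => ((max 0 (1 - |x|) : ℝ) : ℂ)) := by fun_prop
  have hcs : HasCompactSupport (fun x : ℝ => ((max 0 (1 - |x|) : ℝ) : ℂ)) := by
    apply HasCompactSupport.of_support_subset_isCompact (K := Set.Icc (-1 : ℝ) 1) isCompact_Icc
    intro y hy
    by_contra hcon
    apply hy
    have h2 : max 0 (1 - |y|) = 0 := by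
      apply max_eq_left
      by_contra hcon2
      push Not at hcon2
      have h3 : |y| < 1 := by linarith
      rw [abs_lt] at h3
      exact hcon ⟨h3.1.le, h3.2.le⟩
    simp only
    rw [h2]; simp
  have hi : Integrable (fun x : ℝ => ((max 0 (1 - |x|) : ℝ) : ℂ)) :=
    hc.integrable_of_hasCompactSupport hcs
  have hF : 𝓕 (fun x : ℝ => ((max 0 (1 - |x|) : ℝ) : ℂ)) =
      fun t => ((Real.sinc (Real.pi * t) ^ 2 : ℝ) : ℂ) := by
    funext t; exact sinc_fourier_aux1 t
  have hFi : Integrable (𝓕 (fun x : ℝ => ((max 0 (1 - |x|) : ℝ) : ℂ))) := by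
    rw [hF]
    exact sinc_fourier_int.ofReal
  have hinv := hc.fourierInv_fourier_eq hi hFi
  have hx := congrFun hinv x
  rw [hF, Real.fourierInv_eq'] at hx
  unfold tri
  rw [← hx]
  apply integral_congr_ae
  refine Filter.Eventually.of_forall fun v => ?_
  have h6 : (inner ℝ v x : ℝ) = x * v := by
    simp
  simp only [smul_eq_mul, h6]

/-- Fejér kernel -/
noncomputable def KT (δ t : ℝ) : ℝ := δ * Real.sinc (Real.pi * (δ * t)) ^ 2

theorem KT_nonneg {δ : ℝ} (hδ : 0 ≤ δ) (t : ℝ) : 0 ≤ KT δ t := by unfold KT; positivity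

theorem KT_cont (δ : ℝ) : Continuous (KT δ) := by
  unfold KT
  have := Real.continuous_sinc
  fun_prop

theorem KT_neg (δ t : ℝ) : KT δ (-t) = KT δ t := by
  unfold KT
  rw [show Real.pi * (δ * -t) = -(Real.pi * (δ * t)) by ring, Real.sinc_neg]

theorem KT_le {δ : ℝ} (hδ : 0 ≤ δ) (t : ℝ) : KT δ t ≤ δ := by
  unfold KT
  have h1 : Real.sinc (Real.pi * (δ * t)) ^ 2 ≤ 1 := by
    have := Real.abs_sinc_le_one (Real.pi * (δ * t))
    rw [← sq_abs]
    nlinarith [abs_nonneg (Real.sinc (Real.pi * (δ * t)))]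
  nlinarith

theorem KT_tail {δ : ℝ} (hδ : 0 < δ) {t : ℝ} (ht : t ≠ 0) : KT δ t ≤ 1 / (δ * t ^ 2) := by
  unfold KT
  have hp := Real.pi_pos
  have h0 : Real.pi * (δ * t) ≠ 0 := by positivity
  rw [Real.sinc_of_ne_zero h0, le_div_iff₀ (by positivity)]
  have h3 : δ * (Real.sin (Real.pi * (δ * t)) / (Real.pi * (δ * t))) ^ 2 * (δ * t ^ 2) =
      Real.sin (Real.pi * (δ * t)) ^ 2 / Real.pi ^ 2 := by
    field_simp
  rw [h3, div_le_one (by positivity)]
  have h4 := Real.sin_sq_le_one (Real.pi * (δ * t))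
  have h5 := Real.pi_gt_three
  nlinarith

theorem KT_integrable {δ : ℝ} (hδ : 0 < δ) : Integrable (KT δ) := by
  unfold KT
  have h1 := sinc_fourier_int.comp_mul_left' hδ.ne'
  exact h1.const_mul δ

theorem KT_ft0 {δ : ℝ} (hδ : 0 < δ) (x : ℝ) :
    ∫ t : ℝ, (KT δ t : ℂ) * Complex.exp (((x * t : ℝ) : ℂ) * Complex.I) =
      ((tri (x / (2 * Real.pi * δ)) : ℝ) : ℂ) := by
  have hp := Real.pi_pos
  rw [← sinc_ft]
  have h1 := MeasureTheory.Measure.integral_comp_mul_left (fun v : ℝ =>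
    Complex.exp (((2 * Real.pi * (x / (2 * Real.pi * δ) * v) : ℝ) : ℂ) * Complex.I) *
      ((Real.sinc (Real.pi * v) ^ 2 : ℝ) : ℂ)) δ
  have h2 : |δ⁻¹| = δ⁻¹ := abs_of_pos (by positivity)
  rw [h2] at h1
  have h3 : (∫ v : ℝ, Complex.exp (((2 * Real.pi * (x / (2 * Real.pi * δ) * v) : ℝ) : ℂ) *
      Complex.I) * ((Real.sinc (Real.pi * v) ^ 2 : ℝ) : ℂ)) =
      (δ : ℂ) * ∫ t : ℝ, (fun v : ℝ =>
    Complex.exp (((2 * Real.pi * (x / (2 * Real.pi * δ) * v) : ℝ) : ℂ) * Complex.I) *
      ((Real.sinc (Real.pi * v) ^ 2 : ℝ) : ℂ)) (δ * t) := by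
    rw [h1, Complex.real_smul, ← mul_assoc]
    have : (δ : ℂ) * ((δ⁻¹ : ℝ) : ℂ) = 1 := by
      rw [← Complex.ofReal_mul, mul_inv_cancel₀ hδ.ne', Complex.ofReal_one]
    rw [this, one_mul]
  rw [h3, ← integral_const_mul]
  congr 1
  funext t
  simp only
  unfold KT
  have h4 : 2 * Real.pi * (x / (2 * Real.pi * δ) * (δ * t)) = x * t := by field_simp
  rw [h4]
  push_cast
  ring

theorem KT_ft {δ : ℝ} (hδ : 0 < δ) (x z : ℝ) :
    ∫ t : ℝ, (KT δ (t - z) : ℂ) * Complex.exp (((x * t : ℝ) : ℂ) * Complex.I) =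
      Complex.exp (((x * z : ℝ) : ℂ) * Complex.I) * ((tri (x / (2 * Real.pi * δ)) : ℝ) : ℂ) := by
  rw [← KT_ft0 hδ x, ← integral_const_mul]
  have h1 := MeasureTheory.integral_sub_right_eq_self (μ := volume) (fun t : ℝ =>
    Complex.exp (((x * z : ℝ) : ℂ) * Complex.I) * ((KT δ t : ℂ) *
      Complex.exp (((x * t : ℝ) : ℂ) * Complex.I))) z
  rw [← h1]
  congr 1
  funext t
  have h2 : Complex.exp (((x * t : ℝ) : ℂ) * Complex.I) =
      Complex.exp (((x * z : ℝ) : ℂ) * Complex.I) *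
        Complex.exp (((x * (t - z) : ℝ) : ℂ) * Complex.I) := by
    rw [← Complex.exp_add]
    congr 1
    push_cast
    ring
  rw [h2]
  ring

theorem KT_total {δ : ℝ} (hδ : 0 < δ) : ∫ t : ℝ, KT δ t = 1 := by
  have h := KT_ft0 hδ 0
  simp only [zero_mul, Complex.ofReal_zero, Complex.exp_zero, mul_one, zero_div, tri_zero,
    Complex.ofReal_one] at h
  have h2 : ((∫ t : ℝ, KT δ t : ℝ) : ℂ) = 1 := by
    rw [← h]
    exact (integral_ofReal (𝕜 := ℂ)).symm
  exact_mod_cast h2

theorem KT_Ioi {δ R : ℝ} (hδ : 0 < δ) (hR : 0 < R) : ∫ t in Ioi R, KT δ t ≤ 1 / (δ * R) := by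
  have h1 : ∫ t in Ioi R, KT δ t ≤ ∫ t in Ioi R, (1 / δ) * t ^ (-2 : ℝ) := by
    apply setIntegral_mono_on (KT_integrable hδ).integrableOn
    · exact (integrableOn_Ioi_rpow_of_lt (by norm_num) hR).const_mul _
    · exact measurableSet_Ioi
    · intro t ht
      have ht0 : 0 < t := hR.trans ht
      refine (KT_tail hδ ht0.ne').trans (le_of_eq ?_)
      rw [Real.rpow_neg ht0.le]
      norm_num
      field_simp
  refine h1.trans (le_of_eq ?_)
  rw [integral_const_mul, integral_Ioi_rpow_of_lt (by norm_num) hR]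
  norm_num
  rw [Real.rpow_neg_one]
  ring

theorem KT_Iic {δ R : ℝ} (hδ : 0 < δ) (hR : 0 < R) : ∫ t in Iic (-R), KT δ t ≤ 1 / (δ * R) := by
  rw [← integral_comp_neg_Ioi]
  simp only [KT_neg]
  exact KT_Ioi hδ hR

/-- most of the mass of the kernel is in `[-R, R]` -/
theorem KT_mid {δ R : ℝ} (hδ : 0 < δ) (hR : 0 < R) : 1 - 2 / (δ * R) ≤ ∫ t in (-R)..R, KT δ t := by
  have hi := KT_integrable hδ
  have h1 : ∫ t in (-R)..R, KT δ t = (∫ t, KT δ t) - (∫ t in Iic (-R), KT δ t) -
      ∫ t in Ioi R, KT δ t := by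
    have h2 := intervalIntegral.integral_Iic_sub_Iic (μ := volume) (f := KT δ) (a := -R) (b := R)
      hi.integrableOn hi.integrableOn
    have h3 := intervalIntegral.integral_Iic_add_Ioi (μ := volume) (f := KT δ) (b := R)
      hi.integrableOn hi.integrableOn
    linarith
  rw [h1, KT_total hδ]
  have h4 := KT_Ioi hδ hR
  have h5 := KT_Iic hδ hR
  have h6 : 2 / (δ * R) = 1 / (δ * R) + 1 / (δ * R) := by ring
  linarith

theorem KT_cover {δ R t1 t2 t : ℝ} (hδ : 0 < δ) (hR : 0 < R) (h1 : t1 ≤ t) (h2 : t ≤ t2) :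
    1 - 2 / (δ * R) ≤ ∫ z in (t1 - R)..(t2 + R), KT δ (t - z) := by
  refine (KT_mid hδ hR).trans ?_
  rw [intervalIntegral.integral_comp_sub_left (fun z => KT δ z) t]
  apply intervalIntegral.integral_mono_interval (by linarith) (by linarith) (by linarith)
  · exact Filter.Eventually.of_forall fun z => KT_nonneg hδ.le z
  · exact (KT_cont δ).intervalIntegrable _ _

end Pool.Agent.W354.LS
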