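import Pool.Agent.W354.LS.Kern

set_option autoImplicit false

/-!
Fourier series of the periodic triangle function and the values of the Fejér kernel at integers.
-/

open MeasureTheory Filter Topology Set

namespace Pool.Agent.W354.LS

/-- periodic triangle function -/
noncomputable def triC (h : ℝ) : C(AddCircle (1 : ℝ), ℂ) :=
  ⟨fun x => ((tri (‖x‖ / h) : ℝ) : ℂ), by unfold tri; fun_prop⟩

theorem fourier_tri (t : ℝ) : ∫ v : ℝ, Complex.exp (((-2 * Real.pi * v * t : ℝ) : ℂ) * Complex.I) *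
    ((tri v : ℝ) : ℂ) = ((Real.sinc (Real.pi * t) ^ 2 : ℝ) : ℂ) := by
  rw [← sinc_fourier_aux1, Real.fourier_real_eq_integral_exp_smul]
  congr 1

theorem triC_coeff {h : ℝ} (h0 : 0 < h) (h1 : h ≤ 1 / 2) (n : ℤ) :
    fourierCoeff (triC h) n = (KT h n : ℂ) := by
  rw [fourierCoeff_eq_intervalIntegral (triC h) n (-1 / 2)]
  have e1 : (-1 / 2 + 1 : ℝ) = 1 / 2 := by norm_num
  rw [e1]
  have h2 : ∫ x in (-1 / 2 : ℝ)..(1 / 2), @fourier 1 (-n) (x : AddCircle (1 : ℝ)) •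
      (triC h) (x : AddCircle (1 : ℝ)) =
      ∫ x in (-1 / 2 : ℝ)..(1 / 2), Complex.exp (((-2 * Real.pi * x * n : ℝ) : ℂ) * Complex.I) *
        ((tri (x / h) : ℝ) : ℂ) := by
    apply intervalIntegral.integral_congr
    intro x hx
    rw [Set.uIcc_of_le (by norm_num)] at hx
    have h3 : ‖(x : AddCircle (1 : ℝ))‖ = |x| := by
      rw [AddCircle.norm_coe_eq_abs_iff (p := (1 : ℝ)) one_ne_zero]
      rw [abs_one, abs_le]
      exact ⟨by linarith [hx.1], hx.2⟩
    have h4 : (triC h) (x : AddCircle (1 : ℝ)) = ((tri (x / h) : ℝ) : ℂ) := by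
      show ((tri (‖(x : AddCircle (1 : ℝ))‖ / h) : ℝ) : ℂ) = _
      rw [h3]
      unfold tri
      rw [abs_div, abs_div, abs_abs]
    simp only
    rw [h4, fourier_coe_apply, smul_eq_mul]
    congr 2
    push_cast
    ring
  rw [h2]
  have h5 : ∫ x in (-1 / 2 : ℝ)..(1 / 2),
      Complex.exp (((-2 * Real.pi * x * n : ℝ) : ℂ) * Complex.I) * ((tri (x / h) : ℝ) : ℂ) =
      ∫ x : ℝ, Complex.exp (((-2 * Real.pi * x * n : ℝ) : ℂ) * Complex.I) *
        ((tri (x / h) : ℝ) : ℂ) := by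
    rw [intervalIntegral.integral_of_le (by norm_num)]
    apply setIntegral_eq_integral_of_forall_compl_eq_zero
    intro x hx
    have h6 : tri (x / h) = 0 := by
      apply tri_eq_zero
      rw [abs_div, abs_of_pos h0, le_div_iff₀ h0, one_mul]
      by_contra hc
      push Not at hc
      have h7 : |x| < 1 / 2 := by linarith
      rw [abs_lt] at h7
      exact hx ⟨by linarith [h7.1], h7.2.le⟩
    rw [h6]
    simp
  rw [h5]
  have h8 := MeasureTheory.Measure.integral_comp_mul_left (fun x : ℝ =>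
    Complex.exp (((-2 * Real.pi * x * n : ℝ) : ℂ) * Complex.I) * ((tri (x / h) : ℝ) : ℂ)) h
  rw [abs_of_pos (by positivity : 0 < h⁻¹)] at h8
  have h9 : ∫ x : ℝ, Complex.exp (((-2 * Real.pi * x * n : ℝ) : ℂ) * Complex.I) *
        ((tri (x / h) : ℝ) : ℂ) = (h : ℂ) * ∫ x : ℝ, (fun x : ℝ =>
    Complex.exp (((-2 * Real.pi * x * n : ℝ) : ℂ) * Complex.I) * ((tri (x / h) : ℝ) : ℂ)) (h * x) := by
    rw [h8, Complex.real_smul, ← mul_assoc]
    have : (h : ℂ) * ((h⁻¹ : ℝ) : ℂ) = 1 := by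
      rw [← Complex.ofReal_mul, mul_inv_cancel₀ h0.ne', Complex.ofReal_one]
    rw [this, one_mul]
  rw [h9]
  have h10 : ∫ x : ℝ, (fun x : ℝ =>
    Complex.exp (((-2 * Real.pi * x * n : ℝ) : ℂ) * Complex.I) * ((tri (x / h) : ℝ) : ℂ)) (h * x) =
      ∫ v : ℝ, Complex.exp (((-2 * Real.pi * v * (h * n) : ℝ) : ℂ) * Complex.I) *
        ((tri v : ℝ) : ℂ) := by
    congr 1
    funext x
    simp only
    have e2 : h * x / h = x := by field_simp
    rw [e2]
    congr 3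
    push_cast
    ring
  rw [h10, fourier_tri]
  unfold KT
  push_cast
  simp

theorem KT_summable {h : ℝ} (h0 : 0 < h) : Summable (fun n : ℤ => KT h n) := by
  have h1 : Summable (fun n : ℤ => (if n = 0 then h else 0) + (1 / h) * (1 / (n : ℝ) ^ 2)) := by
    apply Summable.add
    · exact (hasSum_ite_eq 0 h).summable
    · exact (Real.summable_one_div_int_pow.2 (by norm_num)).mul_left _
  refine Summable.of_nonneg_of_le (fun n => KT_nonneg h0.le _) (fun n => ?_) h1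
  by_cases hn : n = 0
  · rw [if_pos hn, hn]
    have := KT_le h0.le 0
    simp only [Int.cast_zero]
    norm_num
    exact this
  · rw [if_neg hn, zero_add]
    refine (KT_tail h0 (by exact_mod_cast hn)).trans (le_of_eq ?_)
    field_simp

theorem KT_series0 {h : ℝ} (h0 : 0 < h) (h1 : h ≤ 1 / 2) (x : ℝ) :
    HasSum (fun n : ℤ => (KT h n : ℂ) * Complex.exp (((2 * Real.pi * (n * x) : ℝ) : ℂ) * Complex.I))
      ((tri (‖(x : AddCircle (1 : ℝ))‖ / h) : ℝ) : ℂ) := by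
  have hs : Summable (fourierCoeff (triC h)) := by
    have : fourierCoeff (triC h) = fun n : ℤ => ((KT h n : ℝ) : ℂ) := by
      funext n
      exact triC_coeff h0 h1 n
    rw [this]
    exact Complex.ofRealCLM.summable (KT_summable h0)
  have h2 := has_pointwise_sum_fourier_series_of_summable hs (x : AddCircle (1 : ℝ))
  have h3 : (triC h) (x : AddCircle (1 : ℝ)) =
      ((tri (‖(x : AddCircle (1 : ℝ))‖ / h) : ℝ) : ℂ) := rfl
  rw [h3] at h2
  refine h2.congr_fun ?_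
  intro n
  rw [triC_coeff h0 h1, smul_eq_mul, fourier_coe_apply]
  congr 2
  push_cast
  ring

theorem KT_series {h : ℝ} (h0 : 0 < h) (h1 : h ≤ 1 / 2) (x : ℝ) (y : ℤ) :
    HasSum (fun n : ℤ => (KT h (n - y) : ℂ) *
        Complex.exp (((2 * Real.pi * (n * x) : ℝ) : ℂ) * Complex.I))
      (Complex.exp (((2 * Real.pi * (y * x) : ℝ) : ℂ) * Complex.I) *
        ((tri (‖(x : AddCircle (1 : ℝ))‖ / h) : ℝ) : ℂ)) := by
  have h2 := (KT_series0 h0 h1 x).mul_left
    (Complex.exp (((2 * Real.pi * (y * x) : ℝ) : ℂ) * Complex.I))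
  have h3 := (Equiv.subRight y).hasSum_iff.2 h2
  refine h3.congr_fun ?_
  intro n
  simp only [Function.comp, Equiv.subRight_apply]
  have e : Complex.exp (((2 * Real.pi * (n * x) : ℝ) : ℂ) * Complex.I) =
      Complex.exp (((2 * Real.pi * (y * x) : ℝ) : ℂ) * Complex.I) *
        Complex.exp (((2 * Real.pi * (((n - y : ℤ) : ℝ) * x) : ℝ) : ℂ) * Complex.I) := by
    rw [← Complex.exp_add]
    congr 1
    push_cast
    ring
  rw [e]
  push_cast
  ring

theorem KT_tsum {h : ℝ} (h0 : 0 < h) (h1 : h ≤ 1 / 2) : ∑' n : ℤ, KT h n = 1 := by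
  have h2 := KT_series0 h0 h1 0
  have h3 : ‖((0 : ℝ) : AddCircle (1 : ℝ))‖ = 0 := by
    rw [AddCircle.norm_coe_eq_abs_iff (p := (1 : ℝ)) one_ne_zero |>.2 (by simp)]
    simp
  rw [h3, zero_div, tri_zero] at h2
  simp only [mul_zero, Complex.ofReal_zero, zero_mul, Complex.exp_zero, mul_one,
    Complex.ofReal_one] at h2
  have h4 : HasSum (fun n : ℤ => KT h n) 1 := by
    rw [← Complex.hasSum_ofReal]
    simpa using h2
  exact h4.tsum_eq

/-- the symmetric partial sums -/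
theorem KT_part {h : ℝ} (h0 : 0 < h) {R : ℕ} (hR : 1 ≤ R) (M : ℕ) :
    ∑ n ∈ Finset.Icc (-((R + M : ℕ) : ℤ)) ((R + M : ℕ) : ℤ), KT h n ≤
      ∑ n ∈ Finset.Icc (-(R : ℤ)) R, KT h n + 2 / h * (1 / (R : ℝ) - 1 / ((R + M : ℕ) : ℝ)) := by
  induction M with
  | zero => simp
  | succ M ih =>
    have e : Finset.Icc (-((R + (M + 1) : ℕ) : ℤ)) ((R + (M + 1) : ℕ) : ℤ) =
        insert (-((R + (M + 1) : ℕ) : ℤ)) (insert (((R + (M + 1) : ℕ) : ℤ))
          (Finset.Icc (-((R + M : ℕ) : ℤ)) ((R + M : ℕ) : ℤ))) := by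
      ext x
      simp only [Finset.mem_Icc, Finset.mem_insert]
      push_cast
      omega
    rw [e, Finset.sum_insert, Finset.sum_insert]
    · have hp : (0 : ℝ) < ((R + (M + 1) : ℕ) : ℝ) := by positivity
      have hR0 : (0 : ℝ) < ((R + M : ℕ) : ℝ) := by
        have : 0 < R + M := by omega
        exact_mod_cast this
      have h2 : KT h ((-((R + (M + 1) : ℕ) : ℤ) : ℤ) : ℝ) = KT h (((R + (M + 1) : ℕ) : ℤ) : ℝ) := by
        rw [Int.cast_neg, KT_neg]
      have h3 : KT h (((R + (M + 1) : ℕ) : ℤ) : ℝ) ≤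
          1 / h * (1 / ((R + M : ℕ) : ℝ) - 1 / ((R + (M + 1) : ℕ) : ℝ)) := by
        refine (KT_tail h0 (by rw [Int.cast_natCast]; exact hp.ne')).trans ?_
        rw [Int.cast_natCast]
        have e1 : 1 / (h * ((R + (M + 1) : ℕ) : ℝ) ^ 2) = 1 / h * (1 / ((R + (M + 1) : ℕ) : ℝ) ^ 2) := by
          field_simp
        rw [e1]
        apply mul_le_mul_of_nonneg_left _ (by positivity)
        have e2 : ((R + (M + 1) : ℕ) : ℝ) = ((R + M : ℕ) : ℝ) + 1 := by push_cast; ring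
        rw [e2]
        generalize ((R + M : ℕ) : ℝ) = x at *
        rw [div_sub_div _ _ hR0.ne' (by linarith : x + 1 ≠ 0), div_le_div_iff₀ (by positivity)
          (by positivity)]
        nlinarith
      rw [h2]
      have e3 : 2 / h * (1 / (R : ℝ) - 1 / ((R + (M + 1) : ℕ) : ℝ)) =
          2 / h * (1 / (R : ℝ) - 1 / ((R + M : ℕ) : ℝ)) +
          (1 / h * (1 / ((R + M : ℕ) : ℝ) - 1 / ((R + (M + 1) : ℕ) : ℝ)) +
           1 / h * (1 / ((R + M : ℕ) : ℝ) - 1 / ((R + (M + 1) : ℕ) : ℝ))) := by ring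
      rw [e3]
      linarith
    · simp only [Finset.mem_Icc]
      push_cast
      omega
    · simp only [Finset.mem_Icc, Finset.mem_insert]
      push_cast
      omega

theorem KT_midJ {h : ℝ} (h0 : 0 < h) (h1 : h ≤ 1 / 2) {R : ℕ} (hR : 1 ≤ R) :
    1 - 2 / (h * R) ≤ ∑ n ∈ Finset.Icc (-(R : ℤ)) R, KT h n := by
  have hR0 : (0 : ℝ) < R := by exact_mod_cast hR
  have h2 : ∑' n : ℤ, KT h n ≤ ∑ n ∈ Finset.Icc (-(R : ℤ)) R, KT h n + 2 / (h * R) := by
    apply (KT_summable h0).tsum_le_of_sum_le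
    intro s
    obtain ⟨M, hM⟩ : ∃ M : ℕ, ∀ x ∈ s, |x| ≤ M := by
      refine ⟨(s.sup fun x => x.natAbs), fun x hx => ?_⟩
      have := Finset.le_sup (f := fun x : ℤ => x.natAbs) hx
      rw [Int.abs_eq_natAbs]
      exact_mod_cast this
    have h3 : s ⊆ Finset.Icc (-((R + M : ℕ) : ℤ)) ((R + M : ℕ) : ℤ) := by
      intro x hx
      have := abs_le.1 (hM x hx)
      rw [Finset.mem_Icc]
      push_cast
      omega
    refine (Finset.sum_le_sum_of_subset_of_nonneg h3 (fun _ _ _ => KT_nonneg h0.le _)).trans ?_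
    refine (KT_part h0 hR M).trans ?_
    have h4 : 0 ≤ 1 / ((R + M : ℕ) : ℝ) := by positivity
    have h5 : 2 / (h * R) = 2 / h * (1 / (R : ℝ)) := by field_simp
    rw [h5]
    have h6 : 2 / h * (1 / (R : ℝ) - 1 / ((R + M : ℕ) : ℝ)) ≤ 2 / h * (1 / (R : ℝ)) := by
      apply mul_le_mul_of_nonneg_left _ (by positivity)
      linarith
    linarith
  rw [KT_tsum h0 h1] at h2
  linarith

theorem KT_coverJ {h : ℝ} (h0 : 0 < h) (h1 : h ≤ 1 / 2) {R : ℕ} (hR : 1 ≤ R) (J : ℕ) (j : ℕ)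
    (hj : j < J) :
    1 - 2 / (h * R) ≤ ∑ y ∈ Finset.Icc (-(R : ℤ)) ((J : ℤ) + R), KT h ((j : ℝ) - y) := by
  refine (KT_midJ h0 h1 hR).trans ?_
  have h2 : ∑ n ∈ Finset.Icc (-(R : ℤ)) R, KT h n =
      ∑ y ∈ Finset.Icc ((j : ℤ) - R) ((j : ℤ) + R), KT h ((j : ℝ) - y) := by
    refine Finset.sum_nbij' (fun n => (j : ℤ) - n) (fun y => (j : ℤ) - y) ?_ ?_ ?_ ?_ ?_
    · intro n hn
      rw [Finset.mem_Icc] at hn ⊢
      omega
    · intro n hn
      rw [Finset.mem_Icc] at hn ⊢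
      omega
    · intro n _; ring
    · intro n _; ring
    · intro n _
      congr 1
      push_cast
      ring
  rw [h2]
  apply Finset.sum_le_sum_of_subset_of_nonneg
  · intro y hy
    rw [Finset.mem_Icc] at hy ⊢
    omega
  · intro _ _ _
    exact KT_nonneg h0.le _

end Pool.Agent.W354.LS
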