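import Pool.Agent.W354.LS.KernJ

set_option autoImplicit false

/-!
A two dimensional large sieve: integer frequencies `j < J` and `t ∈ [t1, t2]`, sharp constant.
-/

open MeasureTheory Filter Topology Set

namespace Pool.Agent.W354.LS

theorem swap_ii (f : ℝ → ℝ → ℝ) (hf : Continuous (Function.uncurry f)) {a b c d : ℝ} (hab : a ≤ b)
    (hcd : c ≤ d) :
    ∫ x in a..b, ∫ y in c..d, f x y = ∫ y in c..d, ∫ x in a..b, f x y := by
  simp only [intervalIntegral.integral_of_le hab, intervalIntegral.integral_of_le hcd]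
  apply integral_integral_swap
  rw [Measure.prod_restrict]
  exact (hf.continuousOn.integrableOn_compact (isCompact_Icc.prod isCompact_Icc)).mono_set
    (prod_mono Ioc_subset_Icc_self Ioc_subset_Icc_self)

/-- unimodular exponential -/
noncomputable def ee (x : ℝ) : ℂ := Complex.exp ((x : ℂ) * Complex.I)

theorem ee_norm (x : ℝ) : ‖ee x‖ = 1 := Complex.norm_exp_ofReal_mul_I x

theorem ee_add (x y : ℝ) : ee (x + y) = ee x * ee y := by
  unfold ee
  rw [← Complex.exp_add]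
  congr 1
  push_cast
  ring

theorem ee_conj (x : ℝ) : (starRingEnd ℂ) (ee x) = ee (-x) := by
  unfold ee
  rw [← Complex.exp_conj, map_mul, Complex.conj_ofReal, Complex.conj_I]
  congr 1
  push_cast
  ring

theorem ee_cont : Continuous ee := by unfold ee; fun_prop

variable {α : Type*}

/-- the sum -/
noncomputable def SS (A : Finset α) (θ ℓ : α → ℝ) (w : α → ℂ) (j t : ℝ) : ℂ :=
  ∑ a ∈ A, w a * (ee (2 * Real.pi * (j * θ a)) * ee (ℓ a * t))

theorem SS_cont (A : Finset α) (θ ℓ : α → ℝ) (w : α → ℂ) (j : ℝ) :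
    Continuous (fun t => SS A θ ℓ w j t) := by
  unfold SS
  have := ee_cont
  fun_prop

theorem SS_le (A : Finset α) (θ ℓ : α → ℝ) (w : α → ℂ) (j t : ℝ) :
    ‖SS A θ ℓ w j t‖ ≤ ∑ a ∈ A, ‖w a‖ := by
  unfold SS
  refine (norm_sum_le _ _).trans (Finset.sum_le_sum fun a _ => ?_)
  rw [norm_mul, norm_mul, ee_norm, ee_norm, mul_one, mul_one]

theorem normSq_SS (A : Finset α) (θ ℓ : α → ℝ) (w : α → ℂ) (j t : ℝ) :
    ((‖SS A θ ℓ w j t‖ ^ 2 : ℝ) : ℂ) = ∑ a ∈ A, ∑ b ∈ A, (w a * (starRingEnd ℂ) (w b)) *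
      (ee (2 * Real.pi * (j * (θ a - θ b))) * ee ((ℓ a - ℓ b) * t)) := by
  rw [Complex.ofReal_pow, ← Complex.mul_conj']
  unfold SS
  rw [map_sum, Finset.sum_mul_sum]
  refine Finset.sum_congr rfl fun a _ => Finset.sum_congr rfl fun b _ => ?_
  rw [map_mul, map_mul, ee_conj, ee_conj]
  have e1 : ee (2 * Real.pi * (j * (θ a - θ b))) =
      ee (2 * Real.pi * (j * θ a)) * ee (-(2 * Real.pi * (j * θ b))) := by
    rw [← ee_add]
    congr 1
    ring
  have e2 : ee ((ℓ a - ℓ b) * t) = ee (ℓ a * t) * ee (-(ℓ b * t)) := by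
    rw [← ee_add]
    congr 1
    ring
  rw [e1, e2]
  ring

/-- mean square in `t` against the kernel -/
noncomputable def QQ (A : Finset α) (θ ℓ : α → ℝ) (w : α → ℂ) (δ z j : ℝ) : ℝ :=
  ∫ t : ℝ, KT δ (t - z) * ‖SS A θ ℓ w j t‖ ^ 2

theorem KS_integrable (A : Finset α) (θ ℓ : α → ℝ) (w : α → ℂ) {δ : ℝ} (hδ : 0 < δ) (z j : ℝ) :
    Integrable (fun t : ℝ => KT δ (t - z) * ‖SS A θ ℓ w j t‖ ^ 2) := by
  have h1 : Integrable (fun t : ℝ => KT δ (t - z)) := (KT_integrable hδ).comp_sub_right z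
  have hc : Continuous (fun t => ‖SS A θ ℓ w j t‖ ^ 2) := (SS_cont A θ ℓ w j).norm.pow 2
  refine (h1.mul_bdd (c := (∑ a ∈ A, ‖w a‖) ^ 2) hc.aestronglyMeasurable ?_)
  refine Filter.Eventually.of_forall fun t => ?_
  rw [Real.norm_eq_abs, abs_of_nonneg (by positivity)]
  exact pow_le_pow_left₀ (norm_nonneg _) (SS_le A θ ℓ w j t) 2

theorem QQ_nonneg (A : Finset α) (θ ℓ : α → ℝ) (w : α → ℂ) {δ : ℝ} (hδ : 0 < δ) (z j : ℝ) :
    0 ≤ QQ A θ ℓ w δ z j :=
  integral_nonneg fun t => mul_nonneg (KT_nonneg hδ.le _) (sq_nonneg _)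

theorem QQ_eq (A : Finset α) (θ ℓ : α → ℝ) (w : α → ℂ) {δ : ℝ} (hδ : 0 < δ) (z j : ℝ) :
    ((QQ A θ ℓ w δ z j : ℝ) : ℂ) = ∑ a ∈ A, ∑ b ∈ A, (w a * (starRingEnd ℂ) (w b)) *
      (ee (2 * Real.pi * (j * (θ a - θ b))) * (ee ((ℓ a - ℓ b) * z) *
        ((tri ((ℓ a - ℓ b) / (2 * Real.pi * δ)) : ℝ) : ℂ))) := by
  unfold QQ
  rw [← integral_complex_ofReal]
  have h1 : ∀ t : ℝ, ((KT δ (t - z) * ‖SS A θ ℓ w j t‖ ^ 2 : ℝ) : ℂ) =
      ∑ a ∈ A, ∑ b ∈ A, (w a * (starRingEnd ℂ) (w b) * ee (2 * Real.pi * (j * (θ a - θ b)))) *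
        ((KT δ (t - z) : ℂ) * ee ((ℓ a - ℓ b) * t)) := by
    intro t
    rw [Complex.ofReal_mul, normSq_SS, Finset.mul_sum]
    refine Finset.sum_congr rfl fun a _ => ?_
    rw [Finset.mul_sum]
    refine Finset.sum_congr rfl fun b _ => ?_
    ring
  have hint : ∀ a b : α, Integrable (fun t : ℝ => (w a * (starRingEnd ℂ) (w b) *
      ee (2 * Real.pi * (j * (θ a - θ b)))) *
        ((KT δ (t - z) : ℂ) * ee ((ℓ a - ℓ b) * t))) := by
    intro a b
    apply Integrable.const_mul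
    have h2 : Integrable (fun t : ℝ => ((KT δ (t - z) : ℝ) : ℂ)) :=
      ((KT_integrable hδ).comp_sub_right z).ofReal
    refine h2.mul_bdd (c := 1) ?_ ?_
    · exact (ee_cont.comp (by fun_prop)).aestronglyMeasurable
    · exact Filter.Eventually.of_forall fun t => by rw [ee_norm]
  have h3 : (∫ t : ℝ, ((KT δ (t - z) * ‖SS A θ ℓ w j t‖ ^ 2 : ℝ) : ℂ)) =
      ∫ t : ℝ, ∑ a ∈ A, ∑ b ∈ A, (w a * (starRingEnd ℂ) (w b) *
        ee (2 * Real.pi * (j * (θ a - θ b)))) * ((KT δ (t - z) : ℂ) * ee ((ℓ a - ℓ b) * t)) := by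
    congr 1
    funext t
    exact h1 t
  refine Eq.trans h3 ?_
  rw [integral_finsetSum _ fun a _ => integrable_finsetSum _ fun b _ => hint a b]
  refine Finset.sum_congr rfl fun a _ => ?_
  rw [integral_finsetSum _ fun b _ => hint a b]
  refine Finset.sum_congr rfl fun b _ => ?_
  rw [integral_const_mul]
  have h4 := KT_ft hδ (ℓ a - ℓ b) z
  have h5 : ∫ t : ℝ, (KT δ (t - z) : ℂ) * ee ((ℓ a - ℓ b) * t) =
      ee ((ℓ a - ℓ b) * z) * ((tri ((ℓ a - ℓ b) / (2 * Real.pi * δ)) : ℝ) : ℂ) := h4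
  rw [h5]
  ring

theorem QQ_cont (A : Finset α) (θ ℓ : α → ℝ) (w : α → ℂ) {δ : ℝ} (hδ : 0 < δ) (j : ℝ) :
    Continuous (fun z => QQ A θ ℓ w δ z j) := by
  have h1 : (fun z => QQ A θ ℓ w δ z j) = fun z =>
      (∑ a ∈ A, ∑ b ∈ A, (w a * (starRingEnd ℂ) (w b)) *
      (ee (2 * Real.pi * (j * (θ a - θ b))) * (ee ((ℓ a - ℓ b) * z) *
        ((tri ((ℓ a - ℓ b) / (2 * Real.pi * δ)) : ℝ) : ℂ)))).re := by
    funext z
    rw [← QQ_eq A θ ℓ w hδ z j, Complex.ofReal_re]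
  rw [h1]
  apply Complex.continuous_re.comp
  have := ee_cont
  fun_prop

/-- the value of the double mean square -/
noncomputable def VV (A : Finset α) (θ ℓ : α → ℝ) (w : α → ℂ) (h δ : ℝ) (y : ℤ) (z : ℝ) : ℂ :=
  ∑ a ∈ A, ∑ b ∈ A, (w a * (starRingEnd ℂ) (w b)) *
      ((ee (2 * Real.pi * (y * (θ a - θ b))) *
          ((tri (‖((θ a - θ b : ℝ) : AddCircle (1 : ℝ))‖ / h) : ℝ) : ℂ)) *
        (ee ((ℓ a - ℓ b) * z) * ((tri ((ℓ a - ℓ b) / (2 * Real.pi * δ)) : ℝ) : ℂ)))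

theorem VV_hasSum (A : Finset α) (θ ℓ : α → ℝ) (w : α → ℂ) {h δ : ℝ} (h0 : 0 < h) (h1 : h ≤ 1 / 2)
    (hδ : 0 < δ) (y : ℤ) (z : ℝ) :
    HasSum (fun n : ℤ => ((KT h (n - y) * QQ A θ ℓ w δ z n : ℝ) : ℂ)) (VV A θ ℓ w h δ y z) := by
  unfold VV
  have h2 : (fun n : ℤ => ((KT h (n - y) * QQ A θ ℓ w δ z n : ℝ) : ℂ)) = fun n : ℤ =>
      ∑ a ∈ A, ∑ b ∈ A, ((w a * (starRingEnd ℂ) (w b)) * (ee ((ℓ a - ℓ b) * z) *
        ((tri ((ℓ a - ℓ b) / (2 * Real.pi * δ)) : ℝ) : ℂ))) *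
          ((KT h (n - y) : ℂ) * ee (2 * Real.pi * (n * (θ a - θ b)))) := by
    funext n
    rw [Complex.ofReal_mul, QQ_eq A θ ℓ w hδ z n, Finset.mul_sum]
    refine Finset.sum_congr rfl fun a _ => ?_
    rw [Finset.mul_sum]
    refine Finset.sum_congr rfl fun b _ => ?_
    ring
  rw [h2]
  apply hasSum_sum
  intro a _
  apply hasSum_sum
  intro b _
  have h3 := (KT_series h0 h1 (θ a - θ b) y).mul_left ((w a * (starRingEnd ℂ) (w b)) *
    (ee ((ℓ a - ℓ b) * z) * ((tri ((ℓ a - ℓ b) / (2 * Real.pi * δ)) : ℝ) : ℂ)))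
  convert! h3 using 1
  unfold ee
  ring

theorem VV_le (A : Finset α) (θ ℓ : α → ℝ) (w : α → ℂ) {h δ : ℝ} (h0 : 0 < h)
    (hδ : 0 < δ) (D : α → α → Prop) [DecidableRel D] (m : ℕ)
    (hsep : ∀ a ∈ A, ∀ b ∈ A, ¬ D a b → (h ≤ ‖((θ a - θ b : ℝ) : AddCircle (1 : ℝ))‖ ∨
      2 * Real.pi * δ ≤ |ℓ a - ℓ b|))
    (hD1 : ∀ a ∈ A, (A.filter (fun b => D a b)).card ≤ m)
    (hD2 : ∀ b ∈ A, (A.filter (fun a => D a b)).card ≤ m) (y : ℤ) (z : ℝ) :
    ‖VV A θ ℓ w h δ y z‖ ≤ m * ∑ a ∈ A, ‖w a‖ ^ 2 := by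
  unfold VV
  have hp := Real.pi_pos
  have h1 : ∀ a ∈ A, ∀ b ∈ A, ‖(w a * (starRingEnd ℂ) (w b)) *
      ((ee (2 * Real.pi * (y * (θ a - θ b))) *
          ((tri (‖((θ a - θ b : ℝ) : AddCircle (1 : ℝ))‖ / h) : ℝ) : ℂ)) *
        (ee ((ℓ a - ℓ b) * z) * ((tri ((ℓ a - ℓ b) / (2 * Real.pi * δ)) : ℝ) : ℂ)))‖ ≤
      if D a b then (‖w a‖ ^ 2 + ‖w b‖ ^ 2) / 2 else 0 := by
    intro a ha b hb
    rw [norm_mul, norm_mul, norm_mul, norm_mul, norm_mul, ee_norm, ee_norm, RCLike.norm_conj,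
      Complex.norm_real, Complex.norm_real, Real.norm_of_nonneg (tri_nonneg _),
      Real.norm_of_nonneg (tri_nonneg _), one_mul, one_mul]
    split_ifs with hd
    · have e1 := tri_le_one (‖((θ a - θ b : ℝ) : AddCircle (1 : ℝ))‖ / h)
      have e2 := tri_le_one ((ℓ a - ℓ b) / (2 * Real.pi * δ))
      have e3 := tri_nonneg (‖((θ a - θ b : ℝ) : AddCircle (1 : ℝ))‖ / h)
      have e4 := tri_nonneg ((ℓ a - ℓ b) / (2 * Real.pi * δ))
      have e5 : tri (‖((θ a - θ b : ℝ) : AddCircle (1 : ℝ))‖ / h) *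
          tri ((ℓ a - ℓ b) / (2 * Real.pi * δ)) ≤ 1 := mul_le_one₀ e1 e4 e2
      have e6 : ‖w a‖ * ‖w b‖ ≤ (‖w a‖ ^ 2 + ‖w b‖ ^ 2) / 2 := by
        nlinarith [sq_nonneg (‖w a‖ - ‖w b‖)]
      have e7 : 0 ≤ ‖w a‖ * ‖w b‖ := by positivity
      nlinarith
    · have : tri (‖((θ a - θ b : ℝ) : AddCircle (1 : ℝ))‖ / h) *
          tri ((ℓ a - ℓ b) / (2 * Real.pi * δ)) = 0 := by
        rcases hsep a ha b hb hd with h2 | h2
        · rw [tri_eq_zero (x := ‖((θ a - θ b : ℝ) : AddCircle (1 : ℝ))‖ / h), zero_mul]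
          rw [abs_div, abs_of_pos h0, abs_of_nonneg (norm_nonneg _), le_div_iff₀ h0, one_mul]
          exact h2
        · rw [tri_eq_zero (x := (ℓ a - ℓ b) / (2 * Real.pi * δ)), mul_zero]
          rw [abs_div, abs_of_pos (by positivity : 0 < 2 * Real.pi * δ),
            le_div_iff₀ (by positivity), one_mul]
          exact h2
      rw [this, mul_zero]
  calc _ ≤ ∑ a ∈ A, ∑ b ∈ A, (if D a b then (‖w a‖ ^ 2 + ‖w b‖ ^ 2) / 2 else 0) := by
        refine (norm_sum_le _ _).trans (Finset.sum_le_sum fun a ha => ?_)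
        refine (norm_sum_le _ _).trans (Finset.sum_le_sum fun b hb => ?_)
        exact h1 a ha b hb
    _ = (∑ a ∈ A, ∑ b ∈ A, (if D a b then ‖w a‖ ^ 2 / 2 else 0)) +
        ∑ a ∈ A, ∑ b ∈ A, (if D a b then ‖w b‖ ^ 2 / 2 else 0) := by
        rw [← Finset.sum_add_distrib]
        refine Finset.sum_congr rfl fun a _ => ?_
        rw [← Finset.sum_add_distrib]
        refine Finset.sum_congr rfl fun b _ => ?_
        split_ifs <;> ring
    _ ≤ (∑ a ∈ A, m * (‖w a‖ ^ 2 / 2)) + ∑ b ∈ A, m * (‖w b‖ ^ 2 / 2) := by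
        refine add_le_add (Finset.sum_le_sum fun a ha => ?_) ?_
        · rw [← Finset.sum_filter, Finset.sum_const, nsmul_eq_mul]
          apply mul_le_mul_of_nonneg_right _ (by positivity)
          exact_mod_cast hD1 a ha
        · rw [Finset.sum_comm]
          refine Finset.sum_le_sum fun b hb => ?_
          rw [← Finset.sum_filter, Finset.sum_const, nsmul_eq_mul]
          apply mul_le_mul_of_nonneg_right _ (by positivity)
          exact_mod_cast hD2 b hb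
    _ = _ := by
        rw [← Finset.mul_sum, ← Finset.sum_div]
        ring

/-- the large sieve -/
theorem LS_main (A : Finset α) (θ ℓ : α → ℝ) (w : α → ℂ) {h δ : ℝ} (h0 : 0 < h) (hh : h ≤ 1 / 2)
    (hδ : 0 < δ) (D : α → α → Prop) [DecidableRel D] (m : ℕ)
    (hsep : ∀ a ∈ A, ∀ b ∈ A, ¬ D a b → (h ≤ ‖((θ a - θ b : ℝ) : AddCircle (1 : ℝ))‖ ∨
      2 * Real.pi * δ ≤ |ℓ a - ℓ b|))
    (hD1 : ∀ a ∈ A, (A.filter (fun b => D a b)).card ≤ m)
    (hD2 : ∀ b ∈ A, (A.filter (fun a => D a b)).card ≤ m)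
    (J R : ℕ) (hR : 1 ≤ R) (hhR : 2 ≤ h * R) (R' t1 t2 : ℝ) (hR' : 0 < R') (ht : t1 ≤ t2) :
    (1 - 2 / (h * R)) * ((1 - 2 / (δ * R')) *
      ∑ j ∈ Finset.range J, ∫ t in t1..t2, ‖SS A θ ℓ w j t‖ ^ 2) ≤
      ((J : ℝ) + 2 * R + 1) * (t2 - t1 + 2 * R') * (m * ∑ a ∈ A, ‖w a‖ ^ 2) := by
  set B : ℝ := m * ∑ a ∈ A, ‖w a‖ ^ 2 with hB
  have hB0 : 0 ≤ B := by positivity
  have hε1 : 0 ≤ 1 - 2 / (h * R) := by
    rw [sub_nonneg, div_le_one (by linarith)]
    exact hhR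
  -- step (a)
  have ha : ∀ j : ℝ, (1 - 2 / (δ * R')) * ∫ t in t1..t2, ‖SS A θ ℓ w j t‖ ^ 2 ≤
      ∫ z in (t1 - R')..(t2 + R'), QQ A θ ℓ w δ z j := by
    intro j
    have hSc := SS_cont A θ ℓ w j
    have hK := KT_cont δ
    have g1 : ∫ z in (t1 - R')..(t2 + R'), ∫ t in t1..t2, KT δ (t - z) * ‖SS A θ ℓ w j t‖ ^ 2 ≤
        ∫ z in (t1 - R')..(t2 + R'), QQ A θ ℓ w δ z j := by
      apply intervalIntegral.integral_mono_on (by linarith)
      · apply Continuous.intervalIntegrable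
        apply intervalIntegral.continuous_parametric_intervalIntegral_of_continuous'
        unfold Function.uncurry
        fun_prop
      · exact (QQ_cont A θ ℓ w hδ j).intervalIntegrable _ _
      · intro z _
        unfold QQ
        rw [intervalIntegral.integral_of_le ht]
        exact setIntegral_le_integral (KS_integrable A θ ℓ w hδ z j)
          (Filter.Eventually.of_forall fun t => mul_nonneg (KT_nonneg hδ.le _) (sq_nonneg _))
    refine le_trans ?_ g1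
    rw [swap_ii (fun z t => KT δ (t - z) * ‖SS A θ ℓ w j t‖ ^ 2) (by
      unfold Function.uncurry; fun_prop) (by linarith) ht]
    rw [← intervalIntegral.integral_const_mul]
    apply intervalIntegral.integral_mono_on ht
    · exact (continuous_const.mul (hSc.norm.pow 2)).intervalIntegrable _ _
    · apply Continuous.intervalIntegrable
      apply intervalIntegral.continuous_parametric_intervalIntegral_of_continuous'
      unfold Function.uncurry
      fun_prop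
    · intro t htt
      rw [intervalIntegral.integral_mul_const]
      exact mul_le_mul_of_nonneg_right (KT_cover hδ hR' htt.1 htt.2) (sq_nonneg _)
  -- step (b)
  have hb : ∀ z : ℝ, (1 - 2 / (h * R)) * ∑ j ∈ Finset.range J, QQ A θ ℓ w δ z j ≤
      ((J : ℝ) + 2 * R + 1) * B := by
    intro z
    have g1 : ∀ y : ℤ, ∑ j ∈ Finset.range J, KT h ((j : ℝ) - y) * QQ A θ ℓ w δ z j ≤ B := by
      intro y
      have g2 := VV_hasSum A θ ℓ w h0 hh hδ y z
      have g3 : HasSum (fun n : ℤ => KT h (n - y) * QQ A θ ℓ w δ z n) (VV A θ ℓ w h δ y z).re := by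
        have := Complex.hasSum_re g2
        simpa using this
      have g4 := sum_le_hasSum ((Finset.range J).map Nat.castEmbedding)
        (fun (n : ℤ) _ => mul_nonneg (KT_nonneg h0.le _) (QQ_nonneg A θ ℓ w hδ z n)) g3
      rw [Finset.sum_map] at g4
      simp only [Nat.castEmbedding_apply, Int.cast_natCast] at g4
      refine g4.trans ((Complex.re_le_norm _).trans ?_)
      exact VV_le A θ ℓ w h0 hδ D m hsep hD1 hD2 y z
    have g5 : ∑ j ∈ Finset.range J, (1 - 2 / (h * R)) * QQ A θ ℓ w δ z j ≤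
        ∑ j ∈ Finset.range J, (∑ y ∈ Finset.Icc (-(R : ℤ)) ((J : ℤ) + R), KT h ((j : ℝ) - y)) *
          QQ A θ ℓ w δ z j := by
      refine Finset.sum_le_sum fun j hj => ?_
      rw [Finset.mem_range] at hj
      exact mul_le_mul_of_nonneg_right (KT_coverJ h0 hh hR J j hj) (QQ_nonneg A θ ℓ w hδ z j)
    rw [← Finset.mul_sum] at g5
    refine g5.trans ?_
    have g6 : ∑ j ∈ Finset.range J, (∑ y ∈ Finset.Icc (-(R : ℤ)) ((J : ℤ) + R),
          KT h ((j : ℝ) - y)) * QQ A θ ℓ w δ z j =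
        ∑ y ∈ Finset.Icc (-(R : ℤ)) ((J : ℤ) + R), ∑ j ∈ Finset.range J,
          KT h ((j : ℝ) - y) * QQ A θ ℓ w δ z j := by
      simp only [Finset.sum_mul]
      rw [Finset.sum_comm]
    rw [g6]
    refine (Finset.sum_le_sum fun y _ => g1 y).trans ?_
    rw [Finset.sum_const, Int.card_Icc, nsmul_eq_mul]
    apply mul_le_mul_of_nonneg_right _ hB0
    have : ((J : ℤ) + R + 1 - -(R : ℤ)).toNat = J + 2 * R + 1 := by omega
    rw [this]
    push_cast
    linarith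
  -- step (c)
  calc (1 - 2 / (h * R)) * ((1 - 2 / (δ * R')) *
      ∑ j ∈ Finset.range J, ∫ t in t1..t2, ‖SS A θ ℓ w j t‖ ^ 2)
      = (1 - 2 / (h * R)) * ∑ j ∈ Finset.range J, (1 - 2 / (δ * R')) *
          ∫ t in t1..t2, ‖SS A θ ℓ w j t‖ ^ 2 := by rw [Finset.mul_sum]
    _ ≤ (1 - 2 / (h * R)) * ∑ j ∈ Finset.range J, ∫ z in (t1 - R')..(t2 + R'),
          QQ A θ ℓ w δ z j := by
        apply mul_le_mul_of_nonneg_left _ hε1
        exact Finset.sum_le_sum fun j _ => ha j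
    _ = ∫ z in (t1 - R')..(t2 + R'), (1 - 2 / (h * R)) *
          ∑ j ∈ Finset.range J, QQ A θ ℓ w δ z j := by
        rw [intervalIntegral.integral_const_mul, intervalIntegral.integral_finsetSum]
        intro j _
        exact (QQ_cont A θ ℓ w hδ j).intervalIntegrable _ _
    _ ≤ ∫ _ in (t1 - R')..(t2 + R'), ((J : ℝ) + 2 * R + 1) * B := by
        apply intervalIntegral.integral_mono_on (by linarith)
        · apply Continuous.intervalIntegrable
          have := fun j : ℝ => QQ_cont A θ ℓ w hδ j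
          fun_prop
        · exact continuous_const.intervalIntegrable _ _
        · intro z _
          exact hb z
    _ = _ := by
        rw [intervalIntegral.integral_const, smul_eq_mul]
        ring

end Pool.Agent.W354.LS
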